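import Mathlib
import Pool.Agent.U288.RO.N1

/-!
# Consecutive primes in all the sub-patterns, dilates and reflections of sparse patterns

For a positive proportion of the patterns `0 = h 0 < h 1 < ... < h k ≤ X` all of whose distances `h j - h i` are
shifted primes (a family of density zero), and at the same time for ALL integers `l ≠ 0`, `|l| ≤ L`, ALL nonempty
subsets `T` of `{h 0, ..., h k}` and ALL residue classes `r (mod q)` prime to `q`: the numbers `N + l t`, `t ∈ T`, are
consecutive primes for infinitely many `N ≡ r (mod q)`.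

Proof. By the Maynard-Tao theorem for consecutive primes (starting files: `Pool.Agent.H362R2.CM.quarter`,
`Pool.Agent.H732R3.HausQ.exact_Q`), every set of `K₁` points divisible by `K₁! q` contains, for every size
`j + 1 ≤ k + 1`, every dilation `l` (after a reflection if `l < 0`) and every class `r`, a subset of `j + 1` points
whose dilate is a pattern of consecutive primes (`Nx.exists_in`). Colour the subsets of a large set of points by the
list of the pairs `(l, r)` for which this holds; by Ramsey's theorem, applied to all the sizes `≤ k + 1` one after the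
other, there are `K₁` points such that the colour of a subset depends only on its size (`Nx.ramseyM`), so that all the
subsets of at most `k + 1` of these points have the property for all `(l, r)` (`Nx.pattern_all`). There are at least
`c X ^ D / (log X) ^ E` systems of `D` points all of whose distances are shifted primes, and at most
`C X ^ (2 D - k - 1) / (log X) ^ (2 E - e)` pairs of them have a given set of `k + 1` points in common
(`Pool/Agent/U288/SP`); the inequality of Cauchy and Schwarz gives the theorem (`Nx.fin_all`).
-/

set_option autoImplicit false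

namespace Pool.Agent.Results.MP_3ec731_nt.EverySubpatternAndDilate

open Filter Finset

open Classical in
/-- the vectors `0 = h 0 < h 1 < ... < h k ≤ X`; if `σ ≠ 0`, those with `h j - h i + σ` prime for all `i < j` -/
noncomputable def patterns (k : ℕ) (σ : ℤ) (X : ℕ) : Finset (Fin (k + 1) → ℕ) :=
  (Fintype.piFinset (fun _ : Fin (k + 1) => range (X + 1))).filter (fun h => h 0 = 0 ∧ StrictMono h ∧
    ∀ i j, i < j → σ ≠ 0 → ((h j : ℤ) - h i + σ).toNat.Prime)

/-- the number of the conditions -/
def edges (k : ℕ) (σ : ℤ) : ℕ := if σ = 0 then 0 else k * (k + 1) / 2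

/-- for infinitely many natural numbers `N ≡ r (mod q)` the numbers `N + l t`, `t ∈ T`, are consecutive primes: they
are primes, and every prime between two of them is one of them -/
def Consecutive (l : ℤ) (q r : ℕ) (T : Finset ℕ) : Prop :=
  {N : ℕ | N ≡ r [MOD q] ∧ (∀ t ∈ T, ((N : ℤ) + l * (t : ℤ)).toNat.Prime) ∧
    ∀ p : ℕ, p.Prime → (∃ t ∈ T, (N : ℤ) + l * (t : ℤ) ≤ p) → (∃ t ∈ T, (p : ℤ) ≤ N + l * (t : ℤ)) →
      ∃ t ∈ T, (p : ℤ) = N + l * (t : ℤ)}.Infinite

open Classical in
/-- the patterns all of whose nonempty parts `T` are such that `l T` is a pattern of consecutive primes, in all the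
residue classes prime to `q`, for all the integers `l ≠ 0`, `|l| ≤ L` -/
noncomputable def good (k : ℕ) (σ : ℤ) (L q X : ℕ) : Finset (Fin (k + 1) → ℕ) :=
  (patterns k σ X).filter (fun h => ∀ l : ℤ, l ≠ 0 → l.natAbs ≤ L → ∀ r : ℕ, r.Coprime q →
    ∀ T ⊆ (univ : Finset (Fin (k + 1))).image h, T.Nonempty → Consecutive l q r T)

/-- **Consecutive primes in all the sub-patterns, dilates and reflections of a positive proportion of the patterns made
of shifted primes.** -/
theorem result (k L q : ℕ) (hq : 1 ≤ q) (σ : ℤ) (hσ : σ = 0 ∨ σ = 1 ∨ σ = -1) :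
    ∃ c C : ℝ, 0 < c ∧ ∀ᶠ X : ℕ in atTop,
      c * ((X : ℝ) ^ k / Real.log X ^ edges k σ) ≤ ((good k σ L q X).card : ℝ) ∧
      ((patterns k σ X).card : ℝ) ≤ C * ((X : ℝ) ^ k / Real.log X ^ edges k σ) := by
  classical
  obtain ⟨c, C, hc, h⟩ := Pool.Agent.U288.RO.Nx.fin_all k L q hq σ hσ
  refine ⟨c, C, hc, ?_⟩
  filter_upwards [h] with X hX
  obtain ⟨h1, h2⟩ := hX
  have e : (Pool.Agent.U288.SP.shifts (fun _ _ : Fin (k + 1) => σ) X) = patterns k σ X := by
    unfold Pool.Agent.U288.SP.shifts patterns
    congr!
  rw [e] at h1 h2
  refine ⟨h1.trans (le_of_eq ?_), h2⟩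
  unfold good
  congr!

end Pool.Agent.Results.MP_3ec731_nt.EverySubpatternAndDilate
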